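import Pool.Agent.H19.Leaf

set_option autoImplicit false

namespace Pool.Agent.Results.MP_07218e_co.Upper

open Pool.Agent.H19.Leaf

/-- An improved upper bound for the exponent of distinct leaf-to-leaf path lengths. -/
theorem result (c : ℝ) (h : Pc c) : c ≤ (2 - Real.log 36 / Real.log 57)⁻¹ :=
  main c h

end Pool.Agent.Results.MP_07218e_co.Upper
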